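import Pool.Agent.Helper85.REC.Stmts11

/-!
# REC, row SSL: the stable subspaces of a liftable completely reducible reduction
-/

set_option autoImplicit false

open scoped Classical
open NumberField Polynomial

namespace REC

open MU

theorem st_SSL (h1 : ST_IDL) : ST_SSL := by
  intro G _ n l _ r hL m B A hB
  obtain ⟨hss, hlift⟩ := hL
  obtain ⟨C, hCB, hC⟩ := hss m B A hB
  obtain ⟨_, hrB⟩ := hB
  have hcomm : ∀ g, (B * C) * res r g = res r g * (B * C) := by
    intro g
    rw [Matrix.mul_assoc, hC g, ← Matrix.mul_assoc, ← hrB g, Matrix.mul_assoc]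
  obtain ⟨x, hx, hxr⟩ := hlift (B * C) hcomm
  have hidem : (x.map (PadicInt.toZMod (p := l))) * (x.map (PadicInt.toZMod (p := l))) =
      x.map (PadicInt.toZMod (p := l)) := by
    rw [hx, Matrix.mul_assoc, ← Matrix.mul_assoc C B C, hCB, Matrix.one_mul]
  obtain ⟨e, he, hex, hey⟩ := h1 n l x hidem
  exact ⟨e, C, he, fun g => ((hey (r g : Matrix (Fin n) (Fin n) ℤ_[l]) (hxr g).symm)).symm,
    by rw [hex, hx], hCB⟩

end REC
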