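import Pool.Agent.Helper85.REC.Stmts11

/-!
# REC, row SUG: direct sums of liftable completely reducible reductions
-/

set_option autoImplicit false

open scoped Classical
open NumberField Polynomial

namespace REC

open MU

theorem st_SUG (h1 : ST_SSD) : ST_SUG := by
  intro G _ n l k _ m r s P Q hPQ hPQ0 hQP hPr hss hlift
  -- r Q_i = Q_i s_i
  have hrQ : ∀ i g, (r g : Matrix (Fin n) (Fin n) ℤ_[l]) * Q i =
      Q i * (s i g : Matrix (Fin (m i)) (Fin (m i)) ℤ_[l]) := by
    intro i g
    calc (r g : Matrix (Fin n) (Fin n) ℤ_[l]) * Q i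
        = (∑ j, Q j * P j) * ((r g : Matrix (Fin n) (Fin n) ℤ_[l]) * Q i) := by
          rw [hQP, Matrix.one_mul]
      _ = ∑ j, Q j * ((s j g : Matrix (Fin (m j)) (Fin (m j)) ℤ_[l]) * (P j * Q i)) := by
          rw [Matrix.sum_mul]
          refine Finset.sum_congr rfl fun j _ => ?_
          rw [Matrix.mul_assoc, ← Matrix.mul_assoc (P j), hPr j g, Matrix.mul_assoc]
      _ = Q i * ((s i g : Matrix (Fin (m i)) (Fin (m i)) ℤ_[l]) * (P i * Q i)) := by
          refine Finset.sum_eq_single i (fun j _ hj => ?_) (fun h => absurd (Finset.mem_univ i) h)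
          rw [hPQ0 j i hj, Matrix.mul_zero, Matrix.mul_zero]
      _ = _ := by rw [hPQ i, Matrix.mul_one]
  set φ : ℤ_[l] →+* ZMod l := PadicInt.toZMod (p := l) with hφ
  have hres : ∀ {q : ℕ} (t : G →* Matrix.GeneralLinearGroup (Fin q) ℤ_[l]) (g : G),
      res t g = (t g : Matrix (Fin q) (Fin q) ℤ_[l]).map φ := fun t g => rfl
  have hmm : ∀ {a b c : ℕ} (X : Matrix (Fin a) (Fin b) ℤ_[l]) (Y : Matrix (Fin b) (Fin c) ℤ_[l]),
      (X * Y).map φ = X.map φ * Y.map φ := fun X Y => Matrix.map_mul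
  have hm1 : ∀ {a : ℕ}, (1 : Matrix (Fin a) (Fin a) ℤ_[l]).map φ = 1 := fun {a} =>
    Matrix.map_one φ (map_zero φ) (map_one φ)
  have hPQ' : ∀ i, (P i).map φ * (Q i).map φ = 1 := fun i => by rw [← hmm, hPQ i, hm1]
  have hPQ0' : ∀ i j, i ≠ j → (P i).map φ * (Q j).map φ = 0 := fun i j hij => by
    rw [← hmm, hPQ0 i j hij]
    exact Matrix.map_zero φ (map_zero φ)
  have hsum : ∀ (f : Fin k → Matrix (Fin n) (Fin n) ℤ_[l]),
      (∑ i, f i).map φ = ∑ i, (f i).map φ := by
    intro f
    exact map_sum (φ.mapMatrix (m := Fin n)).toAddMonoidHom f Finset.univ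
  have hQP' : ∑ i, (Q i).map φ * (P i).map φ = 1 := by
    rw [← hm1 (a := n), ← hQP, hsum]
    exact Finset.sum_congr rfl fun i _ => (hmm _ _).symm
  have hPr' : ∀ i g, (P i).map φ * res r g = res (s i) g * (P i).map φ := fun i g => by
    rw [hres, hres, ← hmm, ← hmm, hPr i g]
  have hrQ' : ∀ i g, res r g * (Q i).map φ = (Q i).map φ * res (s i) g := fun i g => by
    rw [hres, hres, ← hmm, ← hmm, hrQ i g]
  refine ⟨h1 G (ZMod l) n k m (res r) (fun i => res (s i)) (fun i => (P i).map φ)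
    (fun i => (Q i).map φ) hPQ' hPQ0' hQP' hPr' hss, ?_⟩
  intro u hu
  have hu' : ∀ i j, ∀ g, ((P j).map φ * u * (Q i).map φ) * res (s i) g =
      res (s j) g * ((P j).map φ * u * (Q i).map φ) := by
    intro i j g
    calc ((P j).map φ * u * (Q i).map φ) * res (s i) g
        = (P j).map φ * u * (res r g * (Q i).map φ) := by rw [hrQ' i g, Matrix.mul_assoc]
      _ = (P j).map φ * (u * res r g) * (Q i).map φ := by simp only [Matrix.mul_assoc]
      _ = ((P j).map φ * res r g) * u * (Q i).map φ := by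
          rw [hu g]; simp only [Matrix.mul_assoc]
      _ = _ := by rw [hPr' j g]; simp only [Matrix.mul_assoc]
  choose x hx hxs using fun i j => hlift i j ((P j).map φ * u * (Q i).map φ) (hu' i j)
  refine ⟨∑ i, ∑ j, Q j * x i j * P i, ?_, ?_⟩
  · rw [hsum]
    have hsum2 : ∀ (i : Fin k), (∑ j, Q j * x i j * P i).map φ =
        ∑ j, (Q j).map φ * ((P j).map φ * u * (Q i).map φ) * (P i).map φ := by
      intro i
      rw [hsum]
      refine Finset.sum_congr rfl fun j _ => ?_
      rw [hmm, hmm, hx i j]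
    simp only [hsum2]
    calc ∑ i, ∑ j, (Q j).map φ * ((P j).map φ * u * (Q i).map φ) * (P i).map φ
        = ∑ i, (∑ j, (Q j).map φ * (P j).map φ) * u * ((Q i).map φ * (P i).map φ) := by
          refine Finset.sum_congr rfl fun i _ => ?_
          rw [Matrix.sum_mul, Matrix.sum_mul]
          exact Finset.sum_congr rfl fun j _ => by simp only [Matrix.mul_assoc]
      _ = u * ∑ i, (Q i).map φ * (P i).map φ := by
          rw [Matrix.mul_sum]
          exact Finset.sum_congr rfl fun i _ => by rw [hQP', Matrix.one_mul]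
      _ = u := by rw [hQP', Matrix.mul_one]
  · intro g
    rw [Matrix.sum_mul, Matrix.mul_sum]
    refine Finset.sum_congr rfl fun i _ => ?_
    rw [Matrix.sum_mul, Matrix.mul_sum]
    refine Finset.sum_congr rfl fun j _ => ?_
    calc Q j * x i j * P i * (r g : Matrix (Fin n) (Fin n) ℤ_[l])
        = Q j * (x i j * (s i g : Matrix (Fin (m i)) (Fin (m i)) ℤ_[l])) * P i := by
          rw [Matrix.mul_assoc (Q j * x i j), hPr i g]; simp only [Matrix.mul_assoc]
      _ = (Q j * (s j g : Matrix (Fin (m j)) (Fin (m j)) ℤ_[l])) * x i j * P i := by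
          rw [hxs i j g]; simp only [Matrix.mul_assoc]
      _ = _ := by rw [← hrQ j g]; simp only [Matrix.mul_assoc]

end REC
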